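import Pool.Agent.Y763.QTP.CmFin
import Pool.Agent.Y763.QTP.Mod
import Pool.Agent.Y763.QTP.Cnt
import Pool.Agent.Y763.QTP.Par
import Pool.Agent.Y19.QT.Fams

set_option autoImplicit false

/-!
Project QT, parity of the orders of vanishing in the families of quadratic twists: the signs of the
functional equations are explicit, `w = w₀ (-N | m)`, and their sum over `|d| ≤ X` is `O(√X)`.
-/

namespace Pool.Agent.Y763.QTPAR

open Pool.Agent.Y19.QT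
open Pool.Agent.Y763.QTP

/-- a family of twists with signs -/
def HasSgn (a b : ℤ) : Prop := ∃ (Q : ℕ) (lam : ℕ → ℝ) (T : Twists Q lam), Sgn T ∧
  (∀ p : ℕ, p.Prime → (p : ℤ) ∣ 2 * (4 * a ^ 3 + 27 * b ^ 2) → p ∣ Q) ∧
  ∀ p : ℕ, p.Prime → ¬ p ∣ Q → lam p = ap a b p / Real.sqrt p

theorem sgn_of_twistsModular {a b : ℤ} (hab : 4 * a ^ 3 + 27 * b ^ 2 ≠ 0) (h : TwistsModular a b) :
    HasSgn a b :=
  T10_sgn a b hab fun g hg => by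
    obtain ⟨N, f, hf⟩ := h g hg
    exact ⟨N, _, afs_of_form hf⟩

theorem sgn_quartic {a : ℤ} (ha : a ≠ 0) : HasSgn a 0 := by
  have hab : 4 * a ^ 3 + 27 * (0 : ℤ) ^ 2 ≠ 0 := by
    have : 4 * a ^ 3 + 27 * (0 : ℤ) ^ 2 = 4 * a ^ 3 := by ring
    rw [this]
    exact mul_ne_zero (by norm_num) (pow_ne_zero _ ha)
  refine T10_sgn a 0 hab fun g hg => ?_
  have h1 : a * g ^ 2 ≠ 0 := mul_ne_zero ha (pow_ne_zero _ hg)
  rw [zero_mul]
  exact quartic_afs _ h1 (Pool.Agent.Y153.QN3.quartic_data _ h1)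

theorem sgn_sextic {b : ℤ} (hb : b ≠ 0) : HasSgn 0 b := by
  have hab : 4 * (0 : ℤ) ^ 3 + 27 * b ^ 2 ≠ 0 := by
    have : 4 * (0 : ℤ) ^ 3 + 27 * b ^ 2 = 27 * b ^ 2 := by ring
    rw [this]
    exact mul_ne_zero (by norm_num) (pow_ne_zero _ hb)
  refine T10_sgn 0 b hab fun g hg => ?_
  rw [zero_mul]
  exact sextic_afs _ (mul_ne_zero hb (pow_ne_zero _ hg))

theorem Fam_sgn {a b : ℤ} (h : Fam a b) : HasSgn a b := by
  have hd := h.disc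
  rcases h with ⟨ha, rfl⟩ | ⟨rfl, hb⟩ | ⟨g, hg, ⟨rfl, rfl⟩ | ⟨rfl, rfl⟩⟩
  · exact sgn_quartic ha
  · exact sgn_sextic hb
  · exact sgn_of_twistsModular hd (twistsModular_twist Pool.Agent.Y812.QTN11.twists11 hg)
  · exact sgn_of_twistsModular hd (twistsModular_twist Pool.Agent.Y812.TM.twists14 hg)

/-- the parity of the order of vanishing at the central point is given by the sign -/
theorem parity_F {a b : ℤ} (hab : 4 * a ^ 3 + 27 * b ^ 2 ≠ 0) {Q : ℕ} {lam : ℕ → ℝ}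
    (T : Twists Q lam)
    (hQ : ∀ p : ℕ, p.Prime → (p : ℤ) ∣ 2 * (4 * a ^ 3 + 27 * b ^ 2) → p ∣ Q)
    (hlam : ∀ p : ℕ, p.Prime → ¬ p ∣ Q → lam p = ap a b p / Real.sqrt p)
    {d : ℤ} (hd : Squarefree d) {F : ℂ → ℂ} (hF : IsLFun (a * d ^ 2) (b * d ^ 3) F) :
    (-1 : ℝ) ^ (analyticOrderAt F 1).toNat = T.w d := by
  rw [Pool.Agent.Y705.QT.T13 a b hab Q lam T
    (fun d hd => ⟨(Pool.Agent.Y703.QT8.T8a T d hd).1, (Pool.Agent.Y703.QT8.T8a T d hd).2.1⟩)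
    hQ hlam d hd F hF]
  exact parity T hd

theorem PAR_of {a b : ℤ} (hab : 4 * a ^ 3 + 27 * b ^ 2 ≠ 0) (h : HasSgn a b) : ∃ C : ℝ,
    ∀ F : ℤ → ℂ → ℂ,
    (∀ d : ℤ, Squarefree d → IsLFun (a * d ^ 2) (b * d ^ 3) (F d)) → ∀ X : ℕ, 1 ≤ X →
    |∑ d ∈ sqf X, (-1 : ℝ) ^ (analyticOrderAt (F d) 1).toNat| ≤ C * Real.sqrt X := by
  obtain ⟨Q, lam, T, hT, hQ, hlam⟩ := h
  obtain ⟨C, hC⟩ := sum_w T hT
  refine ⟨C, fun F hF X _ => ?_⟩
  have e : ∑ d ∈ sqf X, (-1 : ℝ) ^ (analyticOrderAt (F d) 1).toNat = ∑ d ∈ sqf X, T.w d :=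
    Finset.sum_congr rfl fun d hd =>
      parity_F hab T hQ hlam (mem_sqf.1 hd).2 (hF d (mem_sqf.1 hd).2)
  rw [e]
  exact hC X

/-- parity of the orders of vanishing in the families of `Laws.lean`: the two parities are
equidistributed, with a square root error term -/
theorem PAR (a b : ℤ) (h : Fam a b) : ∃ C : ℝ, ∀ F : ℤ → ℂ → ℂ,
    (∀ d : ℤ, Squarefree d → IsLFun (a * d ^ 2) (b * d ^ 3) (F d)) → ∀ X : ℕ, 1 ≤ X →
    |∑ d ∈ sqf X, (-1 : ℝ) ^ (analyticOrderAt (F d) 1).toNat| ≤ C * Real.sqrt X :=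
  PAR_of h.disc (Fam_sgn h)

/-- the same for every curve whose twists are modular -/
theorem PARM (a b : ℤ) (hab : 4 * a ^ 3 + 27 * b ^ 2 ≠ 0) (h : TwistsModular a b) :
    ∃ C : ℝ, ∀ F : ℤ → ℂ → ℂ,
    (∀ d : ℤ, Squarefree d → IsLFun (a * d ^ 2) (b * d ^ 3) (F d)) → ∀ X : ℕ, 1 ≤ X →
    |∑ d ∈ sqf X, (-1 : ℝ) ^ (analyticOrderAt (F d) 1).toNat| ≤ C * Real.sqrt X :=
  PAR_of hab (sgn_of_twistsModular hab h)

end Pool.Agent.Y763.QTPAR
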